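import Pool.Agent.W120.GH.HI

/-!
# Bogomolny identity for self-dual fields (GH-BO)
-/

set_option autoImplicit false

open scoped ContDiff ComplexConjugate
open Filter Topology Set

noncomputable section

namespace Pool.Agent.W120.GH.BO

open Pool.Agent.W117.GH Pool.Agent.W120.GH.HI

variable {ε : ℝ} {X : Fields}

theorem pd_add {f g : ℂ → ℂ} {z : ℂ} (j : Fin 2) (hf : DifferentiableAt ℝ f z)
    (hg : DifferentiableAt ℝ g z) :
    pd j (fun w => f w + g w) z = pd j f z + pd j g z := by
  unfold pd
  rw [fderiv_fun_add hf hg]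
  rfl

theorem pd_normSq (h : SD ε X) (j : Fin 2) (z : ℂ) :
    pd j (fun w => Complex.normSq (X.phi w)) z = 2 * (conj (X.phi z) * X.D j X.phi z).re := by
  have hphi : DifferentiableAt ℝ X.phi z := (h.phi_smooth.differentiable (by simp)) z
  have hc : DifferentiableAt ℝ (fun w => conj (X.phi w)) z :=
    (Complex.conjCLE.differentiableAt).comp z hphi
  have h1 : (fun w => Complex.normSq (X.phi w)) =
      fun w => (conj (X.phi w) * X.phi w).re := by
    funext w
    rw [← Complex.normSq_eq_conj_mul_self, Complex.ofReal_re]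
  have d1 : DifferentiableAt ℝ (fun w => conj (X.phi w) * X.phi w) z := hc.mul hphi
  rw [h1, pd_re j d1, pd_mul j hc hphi, pd_conj j hphi]
  unfold Fields.D
  simp only [Complex.add_re, Complex.mul_re, Complex.conj_re, Complex.conj_im, Complex.sub_re,
    Complex.sub_im, Complex.mul_im, Complex.I_re, Complex.I_im, Complex.ofReal_re,
    Complex.ofReal_im]
  ring

theorem pd_pd_normSq (h : SD ε X) (j : Fin 2) (z : ℂ) :
    pd j (pd j (fun w => Complex.normSq (X.phi w))) z =
      2 * Complex.normSq (X.D j X.phi z) +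
        2 * (conj (X.phi z) * X.D j (X.D j X.phi) z).re := by
  have hphi : DifferentiableAt ℝ X.phi z := (h.phi_smooth.differentiable (by simp)) z
  have hc : DifferentiableAt ℝ (fun w => conj (X.phi w)) z :=
    (Complex.conjCLE.differentiableAt).comp z hphi
  have hD : DifferentiableAt ℝ (X.D j X.phi) z :=
    ((contDiff_D h h.phi_smooth j).differentiable (by simp)) z
  have h1 : pd j (fun w => Complex.normSq (X.phi w)) =
      fun w => (2 * (conj (X.phi w) * X.D j X.phi w)).re := by
    funext w
    rw [pd_normSq h j w]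
    simp
  have d1 : DifferentiableAt ℝ (fun w => conj (X.phi w) * X.D j X.phi w) z := hc.mul hD
  rw [h1, pd_re j (d1.const_mul 2), pd_const_mul j 2 d1, pd_mul j hc hD, pd_conj j hphi]
  have h2 : X.D j (X.D j X.phi) z = pd j (X.D j X.phi) z -
      Complex.I * (X.A j z : ℂ) * X.D j X.phi z := rfl
  have h3 : X.D j X.phi z = pd j X.phi z - Complex.I * (X.A j z : ℂ) * X.phi z := rfl
  have h4 : pd j (X.D j X.phi) z = X.D j (X.D j X.phi) z +
      Complex.I * (X.A j z : ℂ) * X.D j X.phi z := by rw [h2]; ring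
  have h5 : pd j X.phi z = X.D j X.phi z + Complex.I * (X.A j z : ℂ) * X.phi z := by
    rw [h3]; ring
  rw [h4, h5]
  generalize X.D j (X.D j X.phi) z = u
  generalize X.D j X.phi z = v
  generalize X.phi z = p
  generalize X.A j z = t
  rw [Complex.normSq_apply]
  simp only [Complex.add_re, Complex.add_im, Complex.mul_re, Complex.conj_re, Complex.conj_im,
    Complex.mul_im, Complex.I_re, Complex.I_im, Complex.ofReal_re, Complex.ofReal_im, map_add,
    map_mul, Complex.re_ofNat, Complex.im_ofNat]
  ring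

theorem main (hst : PropST) (_ : PropHI) : PropBO := by
  intro ε X h z
  rw [(hst ε X h).1 z]
  unfold Lap
  rw [pd_pd_normSq h 0 z, pd_pd_normSq h 1 z]
  have h1 : (conj (X.phi z) * X.D 0 (X.D 0 X.phi) z).re +
      (conj (X.phi z) * X.D 1 (X.D 1 X.phi) z).re =
      -(X.F 0 1 z * Complex.normSq (X.phi z)) := by
    rw [← Complex.add_re, ← mul_add, D_sum h z]
    have h2 : conj (X.phi z) * (-(X.F 0 1 z : ℂ) * X.phi z) =
        ((-(X.F 0 1 z * Complex.normSq (X.phi z)) : ℝ) : ℂ) := by
      push_cast
      rw [Complex.normSq_eq_conj_mul_self]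
      ring
    rw [h2, Complex.ofReal_re]
  have h3 : Complex.normSq (X.D 1 X.phi z) = Complex.normSq (X.D 0 X.phi z) := by
    rw [h.D_eq z, map_mul, Complex.normSq_I, one_mul]
  rw [h3]
  have h4 := h.F_eq z
  linear_combination (-(1 / 2 : ℝ)) * h1 -
    (1 / 2 * (ε ^ 2 - Complex.normSq (X.phi z))) * h4

end Pool.Agent.W120.GH.BO
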