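import Pool.Agent.W117.GH.Stm

/-!
# Self-dual fields: the equation of the Higgs field (GH-HI)
-/

set_option autoImplicit false

open scoped ContDiff ComplexConjugate
open Filter Topology Set

noncomputable section

namespace Pool.Agent.W120.GH.HI

open Pool.Agent.W117.GH

theorem pd_sub {f g : ℂ → ℂ} {z : ℂ} (j : Fin 2) (hf : DifferentiableAt ℝ f z)
    (hg : DifferentiableAt ℝ g z) :
    pd j (fun w => f w - g w) z = pd j f z - pd j g z := by
  unfold pd
  rw [fderiv_fun_sub hf hg]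
  rfl

theorem pd_mul {f g : ℂ → ℂ} {z : ℂ} (j : Fin 2) (hf : DifferentiableAt ℝ f z)
    (hg : DifferentiableAt ℝ g z) :
    pd j (fun w => f w * g w) z = pd j f z * g z + f z * pd j g z := by
  unfold pd
  rw [fderiv_fun_mul hf hg]
  simp [mul_comm, add_comm]

theorem pd_const_mul {f : ℂ → ℂ} {z : ℂ} (j : Fin 2) (c : ℂ) (hf : DifferentiableAt ℝ f z) :
    pd j (fun w => c * f w) z = c * pd j f z := by
  unfold pd
  rw [fderiv_const_mul hf]
  simp

theorem pd_ofReal {A : ℂ → ℝ} {z : ℂ} (j : Fin 2) (hf : DifferentiableAt ℝ A z) :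
    pd j (fun w => (A w : ℂ)) z = ((pd j A z : ℝ) : ℂ) := by
  unfold pd
  have h1 : HasFDerivAt (fun w => (A w : ℂ)) (Complex.ofRealCLM.comp (fderiv ℝ A z)) z :=
    Complex.ofRealCLM.hasFDerivAt.comp z hf.hasFDerivAt
  rw [h1.fderiv]
  simp

theorem pd_re {f : ℂ → ℂ} {z : ℂ} (j : Fin 2) (hf : DifferentiableAt ℝ f z) :
    pd j (fun w => (f w).re) z = (pd j f z).re := by
  unfold pd
  have h1 : HasFDerivAt (fun w => (f w).re) (Complex.reCLM.comp (fderiv ℝ f z)) z :=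
    Complex.reCLM.hasFDerivAt.comp z hf.hasFDerivAt
  rw [h1.fderiv]
  simp

theorem pd_conj {f : ℂ → ℂ} {z : ℂ} (j : Fin 2) (hf : DifferentiableAt ℝ f z) :
    pd j (fun w => conj (f w)) z = conj (pd j f z) := by
  unfold pd
  have h1 : HasFDerivAt (fun w => conj (f w))
      ((Complex.conjCLE : ℂ →L[ℝ] ℂ).comp (fderiv ℝ f z)) z :=
    (Complex.conjCLE : ℂ →L[ℝ] ℂ).hasFDerivAt.comp z hf.hasFDerivAt
  rw [h1.fderiv]
  simp

theorem contDiff_pd {E : Type*} [NormedAddCommGroup E] [NormedSpace ℝ E] {f : ℂ → E}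
    (hf : ContDiff ℝ ∞ f) (j : Fin 2) : ContDiff ℝ ∞ (pd j f) := by
  unfold pd
  exact (hf.fderiv_right (m := ∞) (by simp)).clm_apply contDiff_const

theorem pd_comm {f : ℂ → ℂ} (hf : ContDiff ℝ ∞ f) (z : ℂ) (i j : Fin 2) :
    pd i (pd j f) z = pd j (pd i f) z := by
  have h1 : ContDiff ℝ ∞ (fderiv ℝ f) := hf.fderiv_right (m := ∞) (by simp)
  have h2 : DifferentiableAt ℝ (fderiv ℝ f) z := (h1.differentiable (by simp)) z
  have h3 : ∀ i j : Fin 2, pd i (pd j f) z = fderiv ℝ (fderiv ℝ f) z (dir i) (dir j) := by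
    intro i j
    have h4 : HasFDerivAt (fun w => fderiv ℝ f w (dir j))
        ((ContinuousLinearMap.apply ℝ ℂ (dir j)).comp (fderiv ℝ (fderiv ℝ f) z)) z :=
      (ContinuousLinearMap.apply ℝ ℂ (dir j)).hasFDerivAt.comp z h2.hasFDerivAt
    unfold pd
    rw [h4.fderiv]
    simp
  have h6 : ((2 : ℕ∞) : WithTop ℕ∞) ≤ ((⊤ : ℕ∞) : WithTop ℕ∞) := WithTop.coe_le_coe.2 le_top
  have h5 : IsSymmSndFDerivAt ℝ f z :=
    (hf.contDiffAt).isSymmSndFDerivAt (by rw [minSmoothness_of_isRCLikeNormedField]; exact h6)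
  rw [h3, h3]
  exact h5 _ _

variable {ε : ℝ} {X : Fields}

theorem contDiff_D (h : SD ε X) {f : ℂ → ℂ} (hf : ContDiff ℝ ∞ f) (j : Fin 2) :
    ContDiff ℝ ∞ (X.D j f) := by
  unfold Fields.D
  have h1 : ContDiff ℝ ∞ (fun z => (X.A j z : ℂ)) :=
    Complex.ofRealCLM.contDiff.comp (h.A_smooth j)
  exact (contDiff_pd hf j).sub ((contDiff_const.mul h1).mul hf)

theorem D_comm (h : SD ε X) (z : ℂ) :
    X.D 0 (X.D 1 X.phi) z - X.D 1 (X.D 0 X.phi) z =
      -Complex.I * (X.F 0 1 z : ℂ) * X.phi z := by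
  have hphi : DifferentiableAt ℝ X.phi z := (h.phi_smooth.differentiable (by simp)) z
  have hA : ∀ j, DifferentiableAt ℝ (X.A j) z := fun j => ((h.A_smooth j).differentiable (by simp)) z
  have hAc : ∀ j, DifferentiableAt ℝ (fun w => (X.A j w : ℂ)) z := fun j =>
    (Complex.ofRealCLM.differentiableAt).comp z (hA j)
  have hp : ∀ j, DifferentiableAt ℝ (pd j X.phi) z := fun j =>
    ((contDiff_pd h.phi_smooth j).differentiable (by simp)) z
  have h1 : ∀ i j, X.D i (X.D j X.phi) z = pd i (pd j X.phi) z -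
      Complex.I * ((pd i (X.A j) z : ℝ) : ℂ) * X.phi z - Complex.I * X.A j z * pd i X.phi z -
      Complex.I * X.A i z * (pd j X.phi z - Complex.I * X.A j z * X.phi z) := by
    intro i j
    have h2 : pd i (X.D j X.phi) z = pd i (pd j X.phi) z -
      (Complex.I * ((pd i (X.A j) z : ℝ) : ℂ) * X.phi z +
        Complex.I * X.A j z * pd i X.phi z) := by
      have e0 : X.D j X.phi = fun w => pd j X.phi w - Complex.I * (X.A j w : ℂ) * X.phi w := rfl
      have d1 : DifferentiableAt ℝ (fun w => Complex.I * (X.A j w : ℂ)) z :=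
        (hAc j).const_mul Complex.I
      have d2 : DifferentiableAt ℝ (fun w => Complex.I * (X.A j w : ℂ) * X.phi w) z :=
        d1.mul hphi
      rw [e0, pd_sub i (hp j) d2, pd_mul i d1 hphi, pd_const_mul i Complex.I (hAc j),
        pd_ofReal i (hA j)]
    have h3 : X.D i (X.D j X.phi) z = pd i (X.D j X.phi) z -
        Complex.I * X.A i z * (pd j X.phi z - Complex.I * X.A j z * X.phi z) := rfl
    rw [h3, h2]
    ring
  rw [h1, h1, pd_comm h.phi_smooth z 1 0]
  unfold Fields.F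
  push_cast
  ring

theorem D_const_mul (X : Fields) {f : ℂ → ℂ} (hf : ContDiff ℝ ∞ f) (c : ℂ) (j : Fin 2) (z : ℂ) :
    X.D j (fun w => c * f w) z = c * X.D j f z := by
  have h1 : DifferentiableAt ℝ f z := (hf.differentiable (by simp)) z
  unfold Fields.D
  rw [pd_const_mul j c h1]
  ring

theorem D_sum (h : SD ε X) (z : ℂ) :
    X.D 0 (X.D 0 X.phi) z + X.D 1 (X.D 1 X.phi) z = -(X.F 0 1 z : ℂ) * X.phi z := by
  have h1 : X.D 1 X.phi = fun w => Complex.I * X.D 0 X.phi w := funext h.D_eq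
  have h2 : X.D 0 X.phi = fun w => -Complex.I * X.D 1 X.phi w := by
    funext w
    rw [h.D_eq w, ← mul_assoc]
    simp
  have h3 : X.D 1 (X.D 1 X.phi) z = Complex.I * X.D 1 (X.D 0 X.phi) z := by
    rw [← D_const_mul X (contDiff_D h h.phi_smooth 0) Complex.I 1 z, ← h1]
  have h4 : X.D 0 (X.D 0 X.phi) z = -Complex.I * X.D 0 (X.D 1 X.phi) z := by
    rw [← D_const_mul X (contDiff_D h h.phi_smooth 1) (-Complex.I) 0 z, ← h2]
  have h5 := D_comm h z
  rw [h3, h4]
  linear_combination (-Complex.I) * h5 + (X.F 0 1 z : ℂ) * X.phi z * Complex.I_mul_I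

theorem sum_eq (X : Fields) (z : ℂ) :
    ∑ j, ∑ k, X.D j (fun w => ((X.inv j k w * X.vol w : ℝ) : ℂ) * X.D k X.phi w) z =
      X.D 0 (X.D 0 X.phi) z + X.D 1 (X.D 1 X.phi) z := by
  have h1 : ∀ j k w, X.inv j k w * X.vol w = if j = k then 1 else 0 := by
    intro j k w
    unfold Fields.inv Fields.vol
    split_ifs
    · rw [← Real.exp_add]; simp
    · simp
  have h0 : ∀ j, X.D j (fun _ => (0 : ℂ)) z = 0 := by
    intro j
    simp [Fields.D, pd]
  simp only [Fin.sum_univ_two, h1]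
  simp [h0]

theorem main : PropHI := by
  intro ε X h z
  rw [sum_eq X z, D_sum h z, h.F_eq z]
  have h1 : Real.exp (X.eta z) ≠ 0 := (Real.exp_pos _).ne'
  have h2 : ((Real.exp (X.eta z) : ℝ) : ℂ) ≠ 0 := by exact_mod_cast h1
  unfold Fields.vol
  push_cast
  rw [← Complex.ofReal_exp]
  field_simp
  ring

end Pool.Agent.W120.GH.HI
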