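import Pool.Agent.W117.GH.Stm

/-!
# The partial differential equation for the function on the plane (GH-VP)
-/

set_option autoImplicit false

open scoped ContDiff ComplexConjugate
open Filter Topology Set

noncomputable section

namespace Pool.Agent.W120.GH

open Pool.Agent.W117.GH

/-- `g` is real differentiable at `z` with differential `D` -/
def HD (g : ℂ → ℝ) (z : ℂ) (D : ℂ → ℝ) : Prop :=
  ∃ L : ℂ →L[ℝ] ℝ, HasFDerivAt g L z ∧ ∀ w, L w = D w

theorem HD.pd {g : ℂ → ℝ} {z : ℂ} {D : ℂ → ℝ} (h : HD g z D) (j : Fin 2) :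
    pd j g z = D (dir j) := by
  obtain ⟨L, h1, h2⟩ := h
  unfold Pool.Agent.W117.GH.pd
  rw [h1.fderiv, h2]

theorem HD.sub {g g' : ℂ → ℝ} {z : ℂ} {D D' : ℂ → ℝ} (h : HD g z D) (h' : HD g' z D') :
    HD (fun w => g w - g' w) z (fun w => D w - D' w) := by
  obtain ⟨L, h1, h2⟩ := h
  obtain ⟨L', h1', h2'⟩ := h'
  exact ⟨L - L', h1.sub h1', fun w => by simp [h2, h2']⟩

theorem HD.cmul {g : ℂ → ℝ} {z : ℂ} {D : ℂ → ℝ} (h : HD g z D) (c : ℝ) :
    HD (fun w => c * g w) z (fun w => c * D w) := by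
  obtain ⟨L, h1, h2⟩ := h
  exact ⟨c • L, h1.const_mul c, fun w => by simp [h2]⟩

theorem HD.mul {g g' : ℂ → ℝ} {z : ℂ} {D D' : ℂ → ℝ} (h : HD g z D) (h' : HD g' z D') :
    HD (fun w => g w * g' w) z (fun w => g z * D' w + D w * g' z) := by
  obtain ⟨L, h1, h2⟩ := h
  obtain ⟨L', h1', h2'⟩ := h'
  refine ⟨g z • L' + g' z • L, h1.mul h1', fun w => ?_⟩
  simp [h2, h2', mul_comm]

theorem HD.comp {g : ℂ → ℝ} {z : ℂ} {D : ℂ → ℝ} (h : HD g z D) {u : ℝ → ℝ} {u' : ℝ}
    (hu : HasDerivAt u u' (g z)) : HD (fun w => u (g w)) z (fun w => u' * D w) := by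
  obtain ⟨L, h1, h2⟩ := h
  refine ⟨u' • L, hu.comp_hasFDerivAt z h1, fun w => by simp [h2]⟩

theorem HD.congr {g g' : ℂ → ℝ} {z : ℂ} {D : ℂ → ℝ} (h : HD g z D) (h' : g' =ᶠ[𝓝 z] g) :
    HD g' z D := by
  obtain ⟨L, h1, h2⟩ := h
  exact ⟨L, h1.congr_of_eventuallyEq h', h2⟩

theorem HD.congrD {g : ℂ → ℝ} {z : ℂ} {D D' : ℂ → ℝ} (h : HD g z D) (h' : ∀ w, D w = D' w) :
    HD g z D' := by
  obtain ⟨L, h1, h2⟩ := h
  exact ⟨L, h1, fun w => (h2 w).trans (h' w)⟩

theorem hd_re {f : ℂ → ℂ} {f' z : ℂ} (hf : HasDerivAt f f' z) (c : ℂ) :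
    HD (fun w => (f w * c).re) z (fun w => (f' * w * c).re) := by
  have h1 : HasFDerivAt (𝕜 := ℝ) (fun w => f w * c)
      ((ContinuousLinearMap.toSpanSingleton ℂ (f' * c)).restrictScalars ℝ) z :=
    (hf.mul_const c).hasFDerivAt.restrictScalars ℝ
  refine ⟨Complex.reCLM.comp ((ContinuousLinearMap.toSpanSingleton ℂ (f' * c)).restrictScalars ℝ),
    Complex.reCLM.hasFDerivAt.comp z h1, fun w => ?_⟩
  simp only [ContinuousLinearMap.comp_apply, ContinuousLinearMap.coe_restrictScalars',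
    ContinuousLinearMap.toSpanSingleton_apply, Complex.reCLM_apply, smul_eq_mul]
  congr 1
  ring

theorem hd_lognormSq {f : ℂ → ℂ} {f' z : ℂ} (hf : HasDerivAt f f' z) (h0 : f z ≠ 0) :
    HD (fun w => Real.log (Complex.normSq (f w))) z (fun w => 2 * (f' / f z * w).re) := by
  have hN : Complex.normSq (f z) ≠ 0 := by simpa using h0
  have h1 := hd_re hf 1
  have h2 := hd_re hf (-Complex.I)
  have h3 := (h1.mul h1)
  have h4 := (h2.mul h2)
  have h5 : HD (fun w => Complex.normSq (f w)) z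
      (fun w => 2 * ((f' * w).re * (f z).re + (f' * w).im * (f z).im)) := by
    obtain ⟨L, a1, a2⟩ := h3
    obtain ⟨L', b1, b2⟩ := h4
    refine ⟨L + L', ?_, ?_⟩
    · have := a1.add b1
      refine this.congr_of_eventuallyEq (Eventually.of_forall fun w => ?_)
      simp [Complex.normSq_apply, Complex.mul_re]
    · intro w
      rw [_root_.add_apply, a2, b2]
      simp [Complex.mul_re, Complex.mul_im]
      ring
  have h6 := h5.comp (Real.hasDerivAt_log hN)
  refine h6.congrD fun w => ?_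
  have h7 : f' / f z * w = (f' * w) * (f z)⁻¹ := by
    rw [div_eq_mul_inv]; ring
  rw [h7, Complex.mul_re (f' * w) (f z)⁻¹, Complex.inv_re, Complex.inv_im]
  field_simp
  ring

theorem xx_pos {k : ℕ} {z : ℂ} (h0 : z ≠ 0) (h1 : z ^ k - 1 ≠ 0) : 0 < xx k z := by
  unfold xx
  have a1 : 0 < Complex.normSq z := Complex.normSq_pos.2 h0
  have a2 : 0 < Complex.normSq (z ^ k - 1) := Complex.normSq_pos.2 h1
  positivity

theorem xx_eq {k : ℕ} {z : ℂ} (h0 : z ≠ 0) (h1 : z ^ k - 1 ≠ 0) :
    xx k z = Real.exp (Real.log (Complex.normSq z) -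
      1 / (k : ℝ) * Real.log (Complex.normSq (z ^ k - 1))) := by
  unfold xx
  have a1 : 0 < Complex.normSq z := Complex.normSq_pos.2 h0
  have a2 : 0 < Complex.normSq (z ^ k - 1) := Complex.normSq_pos.2 h1
  rw [Real.rpow_def_of_pos a2, sub_eq_add_neg (Real.log (Complex.normSq z)), Real.exp_add,
    Real.exp_log a1]
  congr 2
  ring

theorem continuous_Lap {v : ℂ → ℝ} (hv : ContDiff ℝ ∞ v) : Continuous (Lap v) := by
  have h1 : ∀ (u : ℂ → ℝ) (j : Fin 2), ContDiff ℝ ∞ u → ContDiff ℝ ∞ (pd j u) := by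
    intro u j hu
    unfold pd
    exact (hu.fderiv_right (m := ∞) (by simp)).clm_apply contDiff_const
  unfold Lap
  exact ((h1 _ 0 (h1 _ 0 hv)).continuous).add ((h1 _ 1 (h1 _ 1 hv)).continuous)

theorem dense_S (k : ℕ) (hk : 0 < k) : Dense {z : ℂ | z ≠ 0 ∧ z ^ k - 1 ≠ 0} := by
  have h1 : {z : ℂ | z ^ k = 1}.Finite := by
    refine Set.Finite.subset (Finset.finite_toSet (Polynomial.nthRoots k (1 : ℂ)).toFinset) ?_
    intro z hz
    simp only [Finset.mem_coe, Multiset.mem_toFinset]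
    exact (Polynomial.mem_nthRoots hk).2 hz
  have h2 : ({0} ∪ {z : ℂ | z ^ k = 1}).Finite := (Set.finite_singleton 0).union h1
  have h3 := Set.Countable.dense_compl ℝ h2.countable
  convert h3 using 1
  ext z
  simp [sub_eq_zero]

theorem isOpen_S (k : ℕ) : IsOpen {z : ℂ | z ≠ 0 ∧ z ^ k - 1 ≠ 0} := by
  have h1 : IsOpen {z : ℂ | z ≠ 0} := isOpen_ne
  have h2 : IsOpen {z : ℂ | z ^ k - 1 ≠ 0} :=
    isOpen_ne_fun (by fun_prop) continuous_const
  exact h1.inter h2

theorem key (a : ℝ) (k m : ℕ) (h q : ℝ → ℝ) (hk : 2 ≤ k) (hm : 1 ≤ m)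
    (ham : a * (k * m) = k + 1) (hP : Prof a k m h q)
    (hf : ∀ z, z ^ k ≠ 1 → vv k m h q z =
      h (xx k z) - m * Real.log (Complex.normSq (z ^ k - 1)))
    (z : ℂ) (hz : z ≠ 0 ∧ z ^ k - 1 ≠ 0) :
    Lap (vv k m h q) z = -(Real.exp (a * (vv k m h q z -
      Complex.normSq (hh k m z) * Real.exp (vv k m h q z))) *
    (1 - Complex.normSq (hh k m z) * Real.exp (vv k m h q z))) := by
  have hkR : (k : ℝ) ≠ 0 := by positivity
  have hkC : (k : ℂ) ≠ 0 := by
    have : (k : ℕ) ≠ 0 := by omega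
    exact_mod_cast this
  -- the two holomorphic functions
  let sg : ℂ → ℂ := fun w => (k : ℂ) * w ^ (k - 1) / (w ^ k - 1)
  let rho : ℂ → ℂ := fun w => 1 / w - (1 / (k : ℂ)) * sg w
  let tau : ℂ → ℝ := fun w => Real.log (Complex.normSq w) -
      1 / (k : ℝ) * Real.log (Complex.normSq (w ^ k - 1))
  have hpow : ∀ w : ℂ, HasDerivAt (fun w : ℂ => w ^ k - 1) ((k : ℂ) * w ^ (k - 1)) w := by
    intro w
    simpa using (hasDerivAt_pow k w).sub_const 1
  have hL1 : ∀ w, w ^ k - 1 ≠ 0 → HD (fun w => Real.log (Complex.normSq (w ^ k - 1))) w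
      (fun e => 2 * (sg w * e).re) := fun w hw => hd_lognormSq (hpow w) hw
  have hL0 : ∀ w : ℂ, w ≠ 0 → HD (fun w => Real.log (Complex.normSq w)) w
      (fun e => 2 * (1 / w * e).re) := fun w hw => hd_lognormSq (hasDerivAt_id w) hw
  have hre : ∀ (c : ℂ) (e : ℂ), ((1 / (k : ℂ)) * c * e).re = 1 / (k : ℝ) * (c * e).re := by
    intro c e
    have : (1 / (k : ℂ)) * c * e = ((1 / (k : ℝ) : ℝ) : ℂ) * (c * e) := by
      push_cast; ring
    rw [this, Complex.re_ofReal_mul]
  have htau : ∀ w, w ≠ 0 → w ^ k - 1 ≠ 0 → HD tau w (fun e => 2 * (rho w * e).re) := by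
    intro w h0 h1
    refine ((hL0 w h0).sub ((hL1 w h1).cmul (1 / (k : ℝ)))).congrD fun e => ?_
    simp only [rho, sub_mul, Complex.sub_re, hre]
    ring
  -- the profile
  have hdh : ∀ x, HasDerivAt h (deriv h x) x := fun x =>
    (hP.smooth.differentiable (by simp)).differentiableAt.hasDerivAt
  have hH : ∀ t, HasDerivAt (fun t => h (Real.exp t)) (Real.exp t * deriv h (Real.exp t)) t := by
    intro t
    have := (hdh (Real.exp t)).comp t (Real.hasDerivAt_exp t)
    rw [mul_comm]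
    exact this
  have hG : ∀ t, HasDerivAt (fun t => Real.exp t * deriv h (Real.exp t))
      (-(1 / 4) * fa a (h (Real.exp t)) * Real.exp t) t := by
    intro t
    exact (hP.ode (Real.exp t)).comp t (Real.hasDerivAt_exp t)
  -- first derivatives
  have hv1 : ∀ w, w ≠ 0 ∧ w ^ k - 1 ≠ 0 → HD (vv k m h q) w (fun e =>
      (Real.exp (tau w) * deriv h (Real.exp (tau w))) * (2 * (rho w * e).re) -
        m * (2 * (sg w * e).re)) := by
    intro w hw
    have b1 := (htau w hw.1 hw.2).comp (hH (tau w))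
    have b2 := (hL1 w hw.2).cmul (m : ℝ)
    refine (b1.sub b2).congr ?_
    filter_upwards [(isOpen_S k).mem_nhds hw] with y hy
    rw [hf y (by simpa [sub_eq_zero] using hy.2), xx_eq hy.1 hy.2]
  have hpd : ∀ j, pd j (vv k m h q) =ᶠ[𝓝 z] fun w =>
      (Real.exp (tau w) * deriv h (Real.exp (tau w))) * (2 * (rho w * dir j).re) -
        m * (2 * (sg w * dir j).re) := by
    intro j
    filter_upwards [(isOpen_S k).mem_nhds hz] with y hy
    exact (hv1 y hy).pd j
  -- second derivatives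
  obtain ⟨sg', hsg'⟩ : ∃ s', HasDerivAt sg s' z := by
    have : DifferentiableAt ℂ sg z := by
      refine DifferentiableAt.div ?_ ?_ hz.2
      · fun_prop
      · fun_prop
    exact ⟨_, this.hasDerivAt⟩
  obtain ⟨rho', hrho'⟩ : ∃ s', HasDerivAt rho s' z := by
    have : DifferentiableAt ℂ rho z := by
      refine DifferentiableAt.sub ?_ ?_
      · exact DifferentiableAt.div (by fun_prop) (by fun_prop) hz.1
      · exact (hsg'.differentiableAt).const_mul _
    exact ⟨_, this.hasDerivAt⟩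
  have hv2 : ∀ j, pd j (pd j (vv k m h q)) z =
      (Real.exp (tau z) * deriv h (Real.exp (tau z))) * (2 * (rho' * dir j * dir j).re) +
      (-(1 / 4) * fa a (h (Real.exp (tau z))) * Real.exp (tau z)) * (2 * (rho z * dir j).re) ^ 2 -
        m * (2 * (sg' * dir j * dir j).re) := by
    intro j
    have b1 := (htau z hz.1 hz.2).comp (hG (tau z))
    have b2 := (hd_re hrho' (dir j)).cmul 2
    have b3 := ((hd_re hsg' (dir j)).cmul 2).cmul (m : ℝ)
    have b4 := ((b1.mul b2).sub b3).congr (hpd j)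
    rw [b4.pd j]
    ring
  have hrz : rho z = -(1 / (z * (z ^ k - 1))) := by
    simp only [rho, sg]
    have e1 : z * z ^ (k - 1) = z ^ k := by
      rw [← pow_succ']; congr 1; omega
    have := hz.1
    have := hz.2
    field_simp
    linear_combination -e1
  have hz1 : z ^ k ≠ 1 := by simpa [sub_eq_zero] using hz.2
  have hNz : 0 < Complex.normSq z := Complex.normSq_pos.2 hz.1
  have hN : 0 < Complex.normSq (z ^ k - 1) := Complex.normSq_pos.2 hz.2
  have hd0 : dir 0 = 1 := rfl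
  have hd1 : dir 1 = Complex.I := rfl
  have hLap : Lap (vv k m h q) z =
      -(Complex.normSq (rho z) * Real.exp (tau z) * fa a (h (Real.exp (tau z)))) := by
    unfold Lap
    rw [hv2 0, hv2 1, hd0, hd1, Complex.normSq_apply]
    simp only [mul_one, mul_assoc, Complex.I_mul_I, Complex.mul_re, Complex.I_re, Complex.I_im,
      Complex.neg_re, Complex.one_re, Complex.neg_im, Complex.one_im]
    ring
  have hvz := hf z hz1
  rw [xx_eq hz.1 hz.2] at hvz
  change vv k m h q z = h (Real.exp (tau z)) - m * Real.log (Complex.normSq (z ^ k - 1)) at hvz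
  set ell := Real.log (Complex.normSq (z ^ k - 1)) with hell
  have hNe : Complex.normSq (z ^ k - 1) = Real.exp ell := (Real.exp_log hN).symm
  have hhx : h (Real.exp (tau z)) = vv k m h q z + m * ell := by rw [hvz]; ring
  have hhn : Complex.normSq (hh k m z) * Real.exp (vv k m h q z) =
      Real.exp (h (Real.exp (tau z))) := by
    unfold hh
    rw [map_pow, hNe, ← Real.exp_nat_mul, ← Real.exp_add, hhx]
    congr 1
    ring
  have hxr : Complex.normSq (rho z) * Real.exp (tau z) = Real.exp (-(1 / (k : ℝ)) * ell - ell) := by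
    have e1 : Real.exp (tau z) = Complex.normSq z * Real.exp (-(1 / (k : ℝ)) * ell) := by
      simp only [tau]
      rw [← hell, sub_eq_add_neg, Real.exp_add, Real.exp_log hNz]
      congr 2
      ring
    rw [hrz, e1, Complex.normSq_neg, map_div₀, map_mul, hNe, map_one, Real.exp_sub]
    field_simp
  rw [hLap, hxr, hhn]
  unfold fa
  have e2 : Real.exp (a * (h (Real.exp (tau z)) - Real.exp (h (Real.exp (tau z))))) =
      Real.exp (a * (vv k m h q z - Real.exp (h (Real.exp (tau z))))) *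
        Real.exp (1 / (k : ℝ) * ell + ell) := by
    rw [← Real.exp_add]
    congr 1
    have e3 : a * m = 1 / (k : ℝ) + 1 := by
      field_simp
      linarith [ham]
    have e4 : a * h (Real.exp (tau z)) = a * vv k m h q z + (1 / (k : ℝ) + 1) * ell := by
      rw [hhx, ← e3]; ring
    rw [mul_sub, mul_sub, e4]
    ring
  rw [e2]
  have e5 : Real.exp (-(1 / (k : ℝ)) * ell - ell) * Real.exp (1 / (k : ℝ) * ell + ell) = 1 := by
    rw [← Real.exp_add, ← Real.exp_zero]
    congr 1
    ring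
  linear_combination (-(Real.exp (a * (vv k m h q z - Real.exp (h (Real.exp (tau z)))))) *
    (1 - Real.exp (h (Real.exp (tau z))))) * e5

theorem main : PropVP := by
  intro a k m h q hk hm ha ham hP hv hf
  have hc : Continuous (hh k m) := by
    unfold hh; fun_prop
  have hvc := hv.continuous
  have h1 : Continuous (fun z => -(Real.exp (a * (vv k m h q z -
      Complex.normSq (hh k m z) * Real.exp (vv k m h q z))) *
    (1 - Complex.normSq (hh k m z) * Real.exp (vv k m h q z)))) := by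
    have h2 : Continuous (fun z => Complex.normSq (hh k m z)) :=
      Complex.continuous_normSq.comp hc
    fun_prop
  have h3 : IsClosed {z | Lap (vv k m h q) z = -(Real.exp (a * (vv k m h q z -
      Complex.normSq (hh k m z) * Real.exp (vv k m h q z))) *
    (1 - Complex.normSq (hh k m z) * Real.exp (vv k m h q z)))} :=
    isClosed_eq (continuous_Lap hv) h1
  intro z
  have h4 := h3.closure_subset_iff.2 (fun z hz => key a k m h q hk hm ham hP hf z hz)
  exact h4 (dense_S k (by omega) z)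

end Pool.Agent.W120.GH
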